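import Pool.Agent.U329.SN.HaarDem

/-!
# MP_877d49_an: for every `0 < s < 1` the space `L_p[0,1]` has an equivalent `s`-norm for which
the Haar system is `1`-greedy (`1 < p < ∞`, `p ≠ 2`; real and complex scalars).
-/

set_option autoImplicit false

namespace Pool.Agent.Results.MP_877d49_an.OneGreedySNorm

open Finset MeasureTheory Filter Topology
open scoped ENNReal

/-- Lebesgue measure on `[0,1]`. -/
noncomputable abbrev unitMeasure : Measure ℝ := volume.restrict (Set.Icc (0:ℝ) 1)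

/-- The `L_p`-normalised Haar functions, enumerated by `j = 0, 1, 2, ...`.  `j = 0` is `1_{[0,1)}`;
an index `j ≥ 1` is written (uniquely) as `j = 2^n + k` with `0 ≤ k < 2^n`, i.e. `n = Nat.log 2 j`,
and stands for
`2^{n/p} (1_{[k/2^n, (k+1/2)/2^n)} - 1_{[(k+1/2)/2^n, (k+1)/2^n)})`. -/
noncomputable def haarFun (𝕜 : Type) [RCLike 𝕜] (p : ℝ) (j : ℕ) (t : ℝ) : 𝕜 :=
  if j = 0 then Set.indicator (Set.Ico (0:ℝ) 1) (fun _ => 1) t
  else
    (((2:ℝ) ^ ((Nat.log 2 j : ℝ) / p) : ℝ) : 𝕜) *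
      (Set.indicator (Set.Ico (((j:ℝ) - 2 ^ Nat.log 2 j) / 2 ^ Nat.log 2 j)
          (((j:ℝ) - 2 ^ Nat.log 2 j + 1 / 2) / 2 ^ Nat.log 2 j)) (fun _ => 1) t -
        Set.indicator (Set.Ico (((j:ℝ) - 2 ^ Nat.log 2 j + 1 / 2) / 2 ^ Nat.log 2 j)
          (((j:ℝ) - 2 ^ Nat.log 2 j + 1) / 2 ^ Nat.log 2 j)) (fun _ => 1) t)

theorem haarFun_memLp (𝕜 : Type) [RCLike 𝕜] (p : ℝ≥0∞) (q : ℝ) (j : ℕ) :
    MemLp (haarFun 𝕜 q j) p unitMeasure := by
  have hm : ∀ a b : ℝ, Measurable (fun t => Set.indicator (Set.Ico a b) (fun _ => (1:𝕜)) t) :=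
    fun a b => measurable_const.indicator measurableSet_Ico
  have hb : ∀ (a b t : ℝ), ‖Set.indicator (Set.Ico a b) (fun _ => (1:𝕜)) t‖ ≤ 1 := by
    intro a b t
    by_cases h : t ∈ Set.Ico a b
    · rw [Set.indicator_of_mem h, norm_one]
    · rw [Set.indicator_of_notMem h, norm_zero]; exact zero_le_one
  by_cases h0 : j = 0
  · have e : haarFun 𝕜 q j = fun t => Set.indicator (Set.Ico (0:ℝ) 1) (fun _ => (1:𝕜)) t := by
      funext t
      unfold haarFun
      rw [if_pos h0]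
    rw [e]
    exact MemLp.of_bound (hm _ _).aestronglyMeasurable 1 (Eventually.of_forall fun t => hb _ _ t)
  · have e : haarFun 𝕜 q j = fun t => (((2:ℝ) ^ ((Nat.log 2 j : ℝ) / q) : ℝ) : 𝕜) *
      (Set.indicator (Set.Ico (((j:ℝ) - 2 ^ Nat.log 2 j) / 2 ^ Nat.log 2 j)
          (((j:ℝ) - 2 ^ Nat.log 2 j + 1 / 2) / 2 ^ Nat.log 2 j)) (fun _ => 1) t -
        Set.indicator (Set.Ico (((j:ℝ) - 2 ^ Nat.log 2 j + 1 / 2) / 2 ^ Nat.log 2 j)
          (((j:ℝ) - 2 ^ Nat.log 2 j + 1) / 2 ^ Nat.log 2 j)) (fun _ => 1) t) := by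
      funext t
      unfold haarFun
      rw [if_neg h0]
    rw [e]
    refine MemLp.of_bound (((hm _ _).sub (hm _ _)).const_mul _).aestronglyMeasurable
      (‖(((2:ℝ) ^ ((Nat.log 2 j : ℝ) / q) : ℝ) : 𝕜)‖ * (1 + 1)) (Eventually.of_forall fun t => ?_)
    rw [norm_mul]
    apply mul_le_mul_of_nonneg_left _ (norm_nonneg _)
    exact (norm_sub_le _ _).trans (add_le_add (hb _ _ t) (hb _ _ t))

/-- The Haar system as a sequence in `L_p[0,1]`. -/
noncomputable def haar (𝕜 : Type) [RCLike 𝕜] (p : ℝ≥0∞) (j : ℕ) : Lp 𝕜 p unitMeasure :=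
  (haarFun_memLp 𝕜 p p.toReal j).toLp (haarFun 𝕜 p.toReal j)

section defs

variable (𝕜 : Type) [RCLike 𝕜] {X : Type} [NormedAddCommGroup X] [NormedSpace 𝕜 X]

/-- `N` is an `s`-norm. -/
structure IsSNorm (s : ℝ) (N : X → ℝ) : Prop where
  nonneg : ∀ f, 0 ≤ N f
  eq_zero_iff : ∀ f, N f = 0 ↔ f = 0
  smul : ∀ (c : 𝕜) (f : X), N (c • f) = ‖c‖ * N f
  add : ∀ f g, N (f + g) ^ s ≤ N f ^ s + N g ^ s

/-- `N` is equivalent to the norm of `X`. -/
def EquivToNorm (N : X → ℝ) : Prop :=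
  ∃ c C : ℝ, 0 < c ∧ c ≤ C ∧ ∀ f, c * ‖f‖ ≤ N f ∧ N f ≤ C * ‖f‖

/-- `f = ∑ a_j h_j` (convergence of the partial sums in the norm of `X`). -/
def Expands (h : ℕ → X) (f : X) (a : ℕ → 𝕜) : Prop :=
  Tendsto (fun n => ∑ j ∈ range n, a j • h j) atTop (𝓝 f)

/-- `h` is a (Schauder) basis of `X`. -/
def IsBasis (h : ℕ → X) : Prop := ∀ f : X, ∃! a : ℕ → 𝕜, Expands 𝕜 h f a

/-- the basis `h` is `1`-greedy with respect to `N` -/
def OneGreedy (h : ℕ → X) (N : X → ℝ) : Prop :=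
  ∀ (f : X) (a : ℕ → 𝕜), Expands 𝕜 h f a →
    ∀ A : Finset ℕ, (∀ i ∈ A, ∀ j, j ∉ A → ‖a j‖ ≤ ‖a i‖) →
      ∀ (B : Finset ℕ) (b : ℕ → 𝕜), B.card ≤ A.card →
        N (f - ∑ j ∈ A, a j • h j) ≤ N (f - ∑ j ∈ B, b j • h j)

end defs

open U329.SN H75R3

theorem measPres : MeasurePreserving (fun x : ℝ => x) unitMeasure
    (volume.restrict (Set.Ico (0:ℝ) 1)) := by
  have h : unitMeasure = volume.restrict (Set.Ico (0:ℝ) 1) :=
    Measure.restrict_congr_set Ico_ae_eq_Icc.symm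
  rw [← h]
  exact MeasurePreserving.id _

instance : IsProbabilityMeasure unitMeasure := ⟨by simp [unitMeasure]⟩

theorem ae_mem : ∀ᵐ x ∂unitMeasure, x ∈ Set.Ico (0:ℝ) 1 := by
  have h : unitMeasure = volume.restrict (Set.Ico (0:ℝ) 1) :=
    Measure.restrict_congr_set Ico_ae_eq_Icc.symm
  rw [h]
  exact ae_restrict_mem measurableSet_Ico

theorem haarFun_eq (q : ℝ) (j : ℕ) (t : ℝ) (ht : t ∈ Set.Ico (0:ℝ) 1) :
    haarFun ℂ q j t = ((wt j ^ (1 / q) : ℝ) : ℂ) * hr j t := by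
  have hfr : Int.fract t = t := Int.fract_eq_self.mpr ⟨ht.1, ht.2⟩
  by_cases h0 : j = 0
  · subst h0
    unfold haarFun
    rw [if_pos rfl, Set.indicator_of_mem ht, hr_zero]
    simp [wt]
  · unfold haarFun
    rw [if_neg h0]
    set n := Nat.log 2 j with hn
    have hj1 : 2 ^ n ≤ j := Nat.pow_log_le_self 2 h0
    have hw : wt j ^ (1 / q) = (2:ℝ) ^ ((n:ℝ) / q) := by
      unfold wt
      rw [if_neg h0, ← Real.rpow_natCast, ← Real.rpow_mul (by norm_num)]
      congr 1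
      rw [mul_one_div]
    rw [hw]
    congr 1
    have hN : (0:ℝ) < 2 ^ n := by positivity
    have hjr : (2:ℝ) ^ n ≤ j := by exact_mod_cast hj1
    obtain ⟨k, hk⟩ := Nat.exists_eq_add_of_le hj1
    have hkr : (j:ℝ) - 2 ^ n = k := by rw [hk]; push_cast; ring
    have hx0 : 0 ≤ (2:ℝ) ^ n * t := mul_nonneg hN.le ht.1
    have hx0' : 0 ≤ (2:ℝ) ^ (n + 1) * t := mul_nonneg (by positivity) ht.1
    have hnd : nd n t = j ↔ ((k:ℝ) ≤ 2 ^ n * t ∧ 2 ^ n * t < k + 1) := by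
      unfold nd
      rw [hfr]
      constructor
      · intro h
        have h3 : ⌊(2:ℝ) ^ n * t⌋₊ = k := by omega
        rwa [Nat.floor_eq_iff hx0] at h3
      · intro h
        have h3 : ⌊(2:ℝ) ^ n * t⌋₊ = k := by rwa [Nat.floor_eq_iff hx0]
        omega
    have hnd2 : nd (n + 1) t = 2 * j ↔ ((2 * k:ℝ) ≤ 2 ^ (n + 1) * t ∧ 2 ^ (n + 1) * t < 2 * k + 1) := by
      unfold nd
      rw [hfr]
      have e2 : 2 ^ (n + 1) = 2 * 2 ^ n := by ring
      constructor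
      · intro h
        have h3 : ⌊(2:ℝ) ^ (n + 1) * t⌋₊ = 2 * k := by omega
        rw [Nat.floor_eq_iff hx0'] at h3
        push_cast at h3
        exact h3
      · intro h
        have h3 : ⌊(2:ℝ) ^ (n + 1) * t⌋₊ = 2 * k := by
          rw [Nat.floor_eq_iff hx0']
          push_cast
          exact h
        omega
    have e3 : (2:ℝ) ^ (n + 1) * t = 2 * (2 ^ n * t) := by ring
    rw [e3] at hnd2
    rw [hkr]
    have m1 : t ∈ Set.Ico ((k:ℝ) / 2 ^ n) (((k:ℝ) + 1 / 2) / 2 ^ n) ↔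
        ((k:ℝ) ≤ 2 ^ n * t ∧ 2 ^ n * t < k + 1 / 2) := by
      rw [Set.mem_Ico, div_le_iff₀ hN, lt_div_iff₀ hN, mul_comm t]
    have m2 : t ∈ Set.Ico (((k:ℝ) + 1 / 2) / 2 ^ n) (((k:ℝ) + 1) / 2 ^ n) ↔
        ((k:ℝ) + 1 / 2 ≤ 2 ^ n * t ∧ 2 ^ n * t < k + 1) := by
      rw [Set.mem_Ico, div_le_iff₀ hN, lt_div_iff₀ hN, mul_comm t]
    unfold hr
    rw [if_neg h0, ← hn]
    by_cases c1 : nd n t = j
    · rw [if_pos c1]
      have h4 := hnd.mp c1
      by_cases c2 : nd (n + 1) t = 2 * j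
      · rw [if_pos c2]
        have h5 := hnd2.mp c2
        rw [Set.indicator_of_mem (m1.mpr ⟨h4.1, by linarith [h5.2]⟩),
          Set.indicator_of_notMem (fun h => by have := (m2.mp h).1; linarith [h5.2]), sub_zero]
      · rw [if_neg c2]
        have h5 : ¬ (2 * (2 ^ n * t) < 2 * (k:ℝ) + 1) := fun h => c2 (hnd2.mpr ⟨by linarith [h4.1], h⟩)
        rw [not_lt] at h5
        rw [Set.indicator_of_notMem (fun h => by have := (m1.mp h).2; linarith),
          Set.indicator_of_mem (m2.mpr ⟨by linarith, h4.2⟩), zero_sub]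
    · rw [if_neg c1]
      have h4 : ¬ ((k:ℝ) ≤ 2 ^ n * t ∧ 2 ^ n * t < k + 1) := fun h => c1 (hnd.mpr h)
      rw [Set.indicator_of_notMem (fun h => h4 ⟨(m1.mp h).1, by linarith [(m1.mp h).2]⟩),
        Set.indicator_of_notMem (fun h => h4 ⟨by linarith [(m2.mp h).1], (m2.mp h).2⟩), sub_zero]

section cpx

variable {p : ℝ≥0∞} [hp1 : Fact (1 ≤ p)]

theorem haar_eq_en (j : ℕ) : haar ℂ p j = en unitMeasure p measPres.measurable j := by
  apply Lp.ext
  unfold haar en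
  filter_upwards [MemLp.coeFn_toLp (haarFun_memLp ℂ p p.toReal j),
    Lp.coeFn_smul ((wt j ^ (1 / p.toReal) : ℝ) : ℂ) (eh unitMeasure p measPres.measurable j),
    eh_coe (μ := unitMeasure) (p := p) measPres.measurable j, ae_mem] with x h1 h2 h3 h4
  rw [h1, h2, Pi.smul_apply, h3, haarFun_eq _ _ _ h4, smul_eq_mul]

theorem dense_eh (hpt : p ≠ ∞) : Dense (Submodule.span ℂ
    (Set.range (eh unitMeasure p measPres.measurable)) : Set (Lp ℂ p unitMeasure)) := by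
  apply eh_dense measPres hpt (fun x => x) continuous_id
  filter_upwards [ae_mem] with x hx
  exact Int.fract_eq_self.mpr ⟨hx.1, hx.2⟩

theorem exists_GB (h1 : 1 < p) (hpt : p ≠ ∞) (h2 : p ≠ 2) : ∃ (K C : ℝ) (Φ : ℕ → ℝ),
    GB (haar ℂ p) (pn unitMeasure p measPres.measurable) K C Φ := by
  obtain ⟨C, H⟩ := exists_HB (μ := unitMeasure) measPres h1 hpt h2 (dense_eh hpt)
  have e : haar ℂ p = en unitMeasure p measPres.measurable := funext haar_eq_en
  have G := haar_GB (μ := unitMeasure) measPres h1 hpt H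
  rw [← e] at G
  exact ⟨_, _, _, G⟩

theorem pn_haar (m k : ℕ) : pn unitMeasure p measPres.measurable m (haar ℂ p k) =
    if m = k then 1 else 0 := by
  rw [haar_eq_en]
  exact pn_en measPres m k

theorem coef_eq (f : Lp ℂ p unitMeasure) (a : ℕ → ℂ) (h : Expands ℂ (haar ℂ p) f a) (i : ℕ) :
    pn unitMeasure p measPres.measurable i f = a i := by
  have h1 := ((pn unitMeasure p measPres.measurable i).continuous.tendsto f).comp h
  refine tendsto_nhds_unique h1 ?_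
  apply tendsto_const_nhds.congr'
  filter_upwards [eventually_gt_atTop i] with n hn
  simp only [Function.comp_apply]
  rw [map_sum, Finset.sum_eq_single i]
  · rw [map_smul, pn_haar, if_pos rfl, smul_eq_mul, mul_one]
  · intro k _ hk
    rw [map_smul, pn_haar, if_neg (Ne.symm hk), smul_zero]
  · intro h2
    exact absurd (Finset.mem_range.mpr hn) h2

theorem pn_sum (A : Finset ℕ) (a : ℕ → ℂ) (i : ℕ) :
    pn unitMeasure p measPres.measurable i (∑ j ∈ A, a j • haar ℂ p j) = if i ∈ A then a i else 0 := by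
  rw [map_sum]
  have : ∀ j ∈ A, pn unitMeasure p measPres.measurable i (a j • haar ℂ p j) =
      if i = j then a j else 0 := by
    intro j _
    rw [map_smul, pn_haar]
    split_ifs <;> simp
  rw [Finset.sum_congr rfl this, Finset.sum_ite_eq]

theorem basis_complex (h1 : 1 < p) (hpt : p ≠ ∞) (h2 : p ≠ 2) : IsBasis ℂ (haar ℂ p) := by
  obtain ⟨K, C, Φ, G⟩ := exists_GB h1 hpt h2
  intro f
  refine ⟨fun m => pn unitMeasure p measPres.measurable m f, (G.expand f).tendsto_sum_nat, ?_⟩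
  intro a ha
  funext i
  exact (coef_eq f a ha i).symm

theorem main_complex (h1 : 1 < p) (hpt : p ≠ ∞) (h2 : p ≠ 2) (s : ℝ) (hs : 0 < s) (hs1 : s < 1) :
    ∃ N : Lp ℂ p unitMeasure → ℝ, IsSNorm ℂ s N ∧ EquivToNorm N ∧ OneGreedy ℂ (haar ℂ p) N := by
  obtain ⟨K, C, Φ, G⟩ := exists_GB h1 hpt h2
  refine ⟨NN s (haar ℂ p) (pn unitMeasure p measPres.measurable), ⟨NN_nonneg G hs hs1,
    NN_eq_zero G hs hs1, NN_smul G hs hs1, NN_add G hs hs1⟩, ?_, ?_⟩
  · refine ⟨1, max 1 (KK K C s), one_pos, le_max_left _ _, fun f => ⟨?_, ?_⟩⟩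
    · rw [one_mul]; exact norm_le_NN G hs hs1 f
    · exact (NN_le G hs hs1 f).trans (mul_le_mul_of_nonneg_right (le_max_right _ _) (norm_nonneg _))
  · intro f a ha A hA B b hcard
    have hc := coef_eq f a ha
    apply NN_greedy G hs hs1 f _ _ A B hcard
    · intro i hi j hj
      rw [hc, hc]
      exact hA i hi j hj
    · intro i hi
      rw [map_sub, pn_sum, if_pos hi, hc, sub_self]
    · intro i hi
      rw [map_sub, pn_sum, if_neg hi, sub_zero]
    · intro i hi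
      rw [map_sub, pn_sum, if_neg hi, sub_zero]

/-- the isometric embedding of the real `L_p` in the complex one -/
noncomputable def J (p : ℝ≥0∞) [hp1 : Fact (1 ≤ p)] : Lp ℝ p unitMeasure →L[ℝ] Lp ℂ p unitMeasure :=
  Complex.ofRealCLM.compLpL p unitMeasure

/-- real parts -/
noncomputable def R (p : ℝ≥0∞) [hp1 : Fact (1 ≤ p)] : Lp ℂ p unitMeasure →L[ℝ] Lp ℝ p unitMeasure :=
  Complex.reCLM.compLpL p unitMeasure

theorem J_coe (f : Lp ℝ p unitMeasure) : ∀ᵐ x ∂unitMeasure, (J p f) x = ((f x : ℝ) : ℂ) :=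
  Complex.ofRealCLM.coeFn_compLpL f

theorem R_coe (f : Lp ℂ p unitMeasure) : ∀ᵐ x ∂unitMeasure, (R p f) x = (f x).re :=
  Complex.reCLM.coeFn_compLpL f

theorem norm_J (f : Lp ℝ p unitMeasure) : ‖J p f‖ = ‖f‖ := by
  rw [Lp.norm_def, Lp.norm_def]
  congr 1
  apply eLpNorm_congr_norm_ae
  filter_upwards [J_coe f] with x hx
  rw [hx, Complex.norm_real]

theorem J_haar (j : ℕ) : J p (haar ℝ p j) = haar ℂ p j := by
  apply Lp.ext
  filter_upwards [J_coe (haar ℝ p j), MemLp.coeFn_toLp (haarFun_memLp ℝ p p.toReal j),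
    MemLp.coeFn_toLp (haarFun_memLp ℂ p p.toReal j)] with x h1 h2 h3
  have h2' : (haar ℝ p j) x = haarFun ℝ p.toReal j x := h2
  have h3' : (haar ℂ p j) x = haarFun ℂ p.toReal j x := h3
  rw [h1, h2', h3']
  have hi : ∀ a b : ℝ, ((Set.indicator (Set.Ico a b) (fun _ => (1:ℝ)) x : ℝ) : ℂ) =
      Set.indicator (Set.Ico a b) (fun _ => (1:ℂ)) x := by
    intro a b
    by_cases h : x ∈ Set.Ico a b
    · rw [Set.indicator_of_mem h, Set.indicator_of_mem h, Complex.ofReal_one]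
    · rw [Set.indicator_of_notMem h, Set.indicator_of_notMem h, Complex.ofReal_zero]
  unfold haarFun
  split_ifs with h0
  · exact hi _ _
  · rw [← hi, ← hi]
    simp only [RCLike.ofReal_real_eq_id, id]
    push_cast
    rfl

theorem R_J (f : Lp ℝ p unitMeasure) : R p (J p f) = f := by
  apply Lp.ext
  filter_upwards [R_coe (J p f), J_coe f] with x h1 h2
  rw [h1, h2, Complex.ofReal_re]

theorem J_smul (c : ℝ) (f : Lp ℝ p unitMeasure) : J p (c • f) = (c : ℂ) • J p f := by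
  rw [map_smul]
  exact (Complex.coe_smul c (J p f)).symm

theorem R_smul_haar (c : ℂ) (j : ℕ) : R p (c • haar ℂ p j) = c.re • haar ℝ p j := by
  rw [← J_haar]
  apply Lp.ext
  filter_upwards [R_coe (c • J p (haar ℝ p j)), Lp.coeFn_smul c (J p (haar ℝ p j)),
    J_coe (haar ℝ p j), Lp.coeFn_smul c.re (haar ℝ p j)] with x h1 h2 h3 h4
  rw [h1, h2, Pi.smul_apply, h3, h4, Pi.smul_apply, smul_eq_mul, smul_eq_mul, Complex.re_mul_ofReal]

theorem J_sum (A : Finset ℕ) (a : ℕ → ℝ) : J p (∑ j ∈ A, a j • haar ℝ p j) =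
    ∑ j ∈ A, (a j : ℂ) • haar ℂ p j := by
  rw [map_sum]
  refine Finset.sum_congr rfl fun j _ => ?_
  rw [J_smul, J_haar]

theorem expands_J (f : Lp ℝ p unitMeasure) (a : ℕ → ℝ) (h : Expands ℝ (haar ℝ p) f a) :
    Expands ℂ (haar ℂ p) (J p f) (fun j => (a j : ℂ)) := by
  have h1 := ((J p).continuous.tendsto f).comp h
  refine h1.congr fun n => ?_
  rw [Function.comp_apply, J_sum]

theorem basis_real (h1 : 1 < p) (hpt : p ≠ ∞) (h2 : p ≠ 2) : IsBasis ℝ (haar ℝ p) := by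
  intro f
  obtain ⟨a, ha, hu⟩ := basis_complex h1 hpt h2 (J p f)
  refine ⟨fun j => (a j).re, ?_, ?_⟩
  · have h3 := ((R p).continuous.tendsto (J p f)).comp ha
    rw [R_J] at h3
    refine h3.congr fun n => ?_
    rw [Function.comp_apply, map_sum]
    refine Finset.sum_congr rfl fun j _ => ?_
    rw [R_smul_haar]
  · intro b hb
    have h4 := hu _ (expands_J f b hb)
    funext j
    have h5 := congrFun h4 j
    rw [← h5, Complex.ofReal_re]

theorem main_real (h1 : 1 < p) (hpt : p ≠ ∞) (h2 : p ≠ 2) (s : ℝ) (hs : 0 < s) (hs1 : s < 1) :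
    ∃ N : Lp ℝ p unitMeasure → ℝ, IsSNorm ℝ s N ∧ EquivToNorm N ∧ OneGreedy ℝ (haar ℝ p) N := by
  obtain ⟨N, hN, ⟨c, C, hc, hcC, heq⟩, hG⟩ := main_complex h1 hpt h2 s hs hs1
  refine ⟨fun f => N (J p f), ⟨fun f => hN.nonneg _, fun f => ?_, fun c f => ?_, fun f g => ?_⟩,
    ⟨c, C, hc, hcC, fun f => ?_⟩, ?_⟩
  · rw [hN.eq_zero_iff]
    constructor
    · intro h
      have h3 := norm_J f
      rw [h, norm_zero] at h3
      exact norm_eq_zero.mp h3.symm
    · intro h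
      rw [h, map_zero]
  · rw [J_smul, hN.smul, Complex.norm_real]
  · rw [map_add]
    exact hN.add _ _
  · rw [← norm_J f]
    exact heq _
  · intro f a ha A hA B b hcard
    show N (J p (f - ∑ j ∈ A, a j • haar ℝ p j)) ≤ N (J p (f - ∑ j ∈ B, b j • haar ℝ p j))
    rw [map_sub, map_sub, J_sum, J_sum]
    apply hG (J p f) (fun j => (a j : ℂ)) (expands_J f a ha) A _ B (fun j => (b j : ℂ)) hcard
    intro i hi j hj
    simp only [Complex.norm_real]
    exact hA i hi j hj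

end cpx

/-- **Result.** Let `1 < p < ∞`, `p ≠ 2`.  The Haar system is a basis of `L_p[0,1]` and for *every*
`0 < s < 1` there is an `s`-norm on `L_p[0,1]`, equivalent to the usual norm, for which the Haar
system is `1`-greedy.  This holds for real and for complex scalars. -/
theorem result (p : ℝ≥0∞) [Fact (1 ≤ p)] (h1 : 1 < p) (hpt : p ≠ ∞) (h2 : p ≠ 2) :
    (IsBasis ℝ (haar ℝ p) ∧ ∀ s : ℝ, 0 < s → s < 1 →
      ∃ N : Lp ℝ p unitMeasure → ℝ, IsSNorm ℝ s N ∧ EquivToNorm N ∧ OneGreedy ℝ (haar ℝ p) N) ∧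
    (IsBasis ℂ (haar ℂ p) ∧ ∀ s : ℝ, 0 < s → s < 1 →
      ∃ N : Lp ℂ p unitMeasure → ℝ, IsSNorm ℂ s N ∧ EquivToNorm N ∧ OneGreedy ℂ (haar ℂ p) N) :=
  ⟨⟨basis_real h1 hpt h2, main_real h1 hpt h2⟩, ⟨basis_complex h1 hpt h2, main_complex h1 hpt h2⟩⟩

end Pool.Agent.Results.MP_877d49_an.OneGreedySNorm
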